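import Pool.Agent.helper58.CRO.SpecA

open scoped Manifold ContDiff Topology ENNReal
open MeasureTheory Set

noncomputable section

namespace Pool.Agent.CRO

/-- the symplectic form as a bilinear form -/
def DT1_B (n : ℕ) : LinearMap.BilinForm ℝ (PS n) :=
  LinearMap.mk₂ ℝ (fun v w : PS n => symp v w)
    (by intro a b c; simp only [symp, Prod.fst_add, Prod.snd_add, inner_add_left]; ring)
    (by intro r a b; simp only [symp, Prod.smul_fst, Prod.smul_snd, inner_smul_left, smul_eq_mul]
        simp only [conj_trivial]
        ring)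
    (by intro a b c; simp only [symp, Prod.fst_add, Prod.snd_add, inner_add_right]; ring)
    (by intro r a b; simp only [symp, Prod.smul_fst, Prod.smul_snd, inner_smul_right, smul_eq_mul]; ring)

lemma DT1_nd (n : ℕ) (v : PS n) (h : ∀ w, symp v w = 0) : v = 0 := by
  have h1 := h (0, v.1)
  have h2 := h (v.2, 0)
  unfold symp at h1 h2
  simp only [inner_zero_right, sub_zero, zero_sub, neg_eq_zero] at h1 h2
  have h3 := inner_self_eq_zero.1 h1
  have h4 := inner_self_eq_zero.1 h2
  exact Prod.ext h3 h4

theorem DT1 : DT1_stmt := by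
  intro n L hL
  let b := Module.finBasis ℝ (PS n)
  let L' : PS n →ₗ[ℝ] PS n := (L : PS n →ₗ[ℝ] PS n)
  have hcomp : (DT1_B n).comp L' L' = DT1_B n := by
    apply LinearMap.ext
    intro v
    apply LinearMap.ext
    intro w
    exact hL v w
  have hnd : (DT1_B n).Nondegenerate := by
    constructor
    · intro v hv
      exact DT1_nd n v hv
    · intro v hv
      apply DT1_nd n v
      intro w
      have h1 : symp w v = 0 := hv w
      have h2 : symp v w = -symp w v := by
        unfold symp
        rw [real_inner_comm w.2 v.1, real_inner_comm w.1 v.2]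
        ring
      rw [h2, h1, neg_zero]
  have hdet0 : (LinearMap.BilinForm.toMatrix b (DT1_B n)).det ≠ 0 :=
    (LinearMap.BilinForm.nondegenerate_iff_det_ne_zero b).1 hnd
  have hm := LinearMap.BilinForm.toMatrix_comp (b := b) (c := b) (DT1_B n) L' L'
  rw [hcomp] at hm
  have hd := congrArg Matrix.det hm
  rw [Matrix.det_mul, Matrix.det_mul, Matrix.det_transpose, LinearMap.det_toMatrix] at hd
  have hsq : (LinearMap.det L') ^ 2 = 1 := by
    have h3 : (LinearMap.BilinForm.toMatrix b (DT1_B n)).det * ((LinearMap.det L') ^ 2 - 1) = 0 := by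
      linear_combination -hd
    rcases mul_eq_zero.1 h3 with h4 | h4
    · exact absurd h4 hdet0
    · linarith
  have h5 : L.det = LinearMap.det L' := rfl
  rw [h5]
  have h6 : |LinearMap.det L'| ^ 2 = 1 := by rw [sq_abs]; exact hsq
  exact (pow_eq_one_iff_of_nonneg (abs_nonneg _) (by norm_num)).1 h6

end Pool.Agent.CRO
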