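import Pool.Agent.helper58.CRO.SpecB

open scoped Manifold ContDiff Topology ENNReal
open MeasureTheory Set

noncomputable section

namespace Pool.Agent.CRO

theorem DNM (h1 : HVA_stmt) (h2 : NRG_stmt) : DNM_stmt := by
  intro n r0 r1 𝒢 H Φ hΦ z u hz hs hx
  have hnr : nrm2 𝒢 (Φ u z) = nrm2 𝒢 z := h2 n r0 r1 𝒢 H Φ hΦ z u hz hs
  have hxr : ‖(Φ u z).1‖ < r1 := hs u right_mem_uIcc
  have hr1 : r1 < r0 := hΦ.r1lt
  have hv := (h1 n r0 r1 𝒢 H Φ hΦ (Φ u z) hxr (by rw [hnr]; linarith)).1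
  have hode := hΦ.ode z u
  have hfst : HasDerivAt (fun s => (Φ s z).1) (hvf H (Φ u z)).1 u := hode.fst
  rw [hv] at hfst
  obtain ⟨x, hxdef⟩ : ∃ x, x = (Φ u z).1 := ⟨_, rfl⟩
  obtain ⟨p, hpdef⟩ : ∃ p, p = (Φ u z).2 := ⟨_, rfl⟩
  have hnr2 : inner ℝ (𝒢.G x p) p < 1 := by
    have : nrm2 𝒢 (Φ u z) < 1 := by rw [hnr]; exact hz
    unfold nrm2 at this
    rw [← hxdef, ← hpdef] at this
    exact this
  rw [← hxdef, ← hpdef] at hfst ⊢
  rw [← hxdef] at hx hxr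
  have hxr0 : ‖x‖ < r0 := lt_trans hxr hr1
  have hg : 𝒢.G x x = x := 𝒢.gauss x hxr0
  have hpos := 𝒢.pos x hxr0
  have hnx : 0 < ‖x‖ := norm_pos_iff.2 hx
  have hinner : inner ℝ x (𝒢.G x p) = inner ℝ x p := by
    rw [← hpos.1 x p, hg]
  refine ⟨?_, ?_⟩
  · have h3 : HasDerivAt (fun s => ‖(Φ s z).1‖ ^ 2) (2 * inner ℝ (Φ u z).1 (𝒢.G x p)) u := by
      exact hfst.norm_sq
    rw [← hxdef, hinner] at h3
    have h4 : HasDerivAt (fun s => Real.sqrt (‖(Φ s z).1‖ ^ 2))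
        ((2 * inner ℝ x p) / (2 * Real.sqrt (‖(Φ u z).1‖ ^ 2))) u := by
      apply h3.sqrt
      rw [← hxdef]
      positivity
    rw [← hxdef, Real.sqrt_sq hnx.le, mul_div_mul_left _ _ (two_ne_zero)] at h4
    have h5 : (fun s => Real.sqrt (‖(Φ s z).1‖ ^ 2)) = fun s => ‖(Φ s z).1‖ := by
      funext s
      exact Real.sqrt_sq (norm_nonneg _)
    rw [h5] at h4
    exact h4
  · -- Cauchy Schwarz
    obtain ⟨c, hc⟩ : ∃ c : ℝ, c = inner ℝ x p / ‖x‖ := ⟨_, rfl⟩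
    rw [← hc]
    have hcx : inner ℝ x p = c * ‖x‖ := by
      rw [hc]; field_simp
    have hnn : ∀ v, 0 ≤ inner ℝ (𝒢.G x v) v := by
      intro v
      by_cases hv0 : v = 0
      · rw [hv0]; simp
      · exact (hpos.2 v hv0).le
    have h6 := hnn (‖x‖ • p - c • x)
    have h7 : inner ℝ (𝒢.G x (‖x‖ • p - c • x)) (‖x‖ • p - c • x) =
        ‖x‖ ^ 2 * (inner ℝ (𝒢.G x p) p - c ^ 2) := by
      have h8 : inner ℝ (𝒢.G x p) x = c * ‖x‖ := by
        rw [real_inner_comm, hinner, hcx]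
      rw [map_sub, map_smul, map_smul, hg]
      simp only [inner_sub_left, inner_sub_right, real_inner_smul_left, real_inner_smul_right]
      rw [h8, hcx, real_inner_self_eq_norm_sq]
      ring
    rw [h7] at h6
    have h9 : 0 ≤ inner ℝ (𝒢.G x p) p - c ^ 2 := by
      by_contra hneg
      push Not at hneg
      have : ‖x‖ ^ 2 * (inner ℝ (𝒢.G x p) p - c ^ 2) < 0 := mul_neg_of_pos_of_neg (by positivity) hneg
      linarith
    rw [← sq_lt_one_iff_abs_lt_one]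
    linarith

end Pool.Agent.CRO
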