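import Pool.Agent.helper58.CRO.SpecF

open scoped Manifold ContDiff Topology ENNReal
open MeasureTheory Set Bundle Filter

noncomputable section

namespace Pool.Agent.CRO

theorem EX4 (h1 : EX3_stmt.{0}) : EX4_stmt := by
  intro n hn
  unfold cstar
  apply le_sInf
  rintro c ⟨M, i1, i2, i3, i4, i5, i6, g, m, r, hr, hinj, rfl⟩
  have h := h1 n hn M g m r hr hinj
  have hrn : 0 < r ^ n := pow_pos hr n
  have h0 : ENNReal.ofReal (r ^ n) ≠ 0 := by
    rw [Ne, ENNReal.ofReal_eq_zero, not_le]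
    exact hrn
  rw [ENNReal.le_div_iff_mul_le (Or.inl h0) (Or.inl ENNReal.ofReal_ne_top)]
  have hk : 0 ≤ kap n * (5 / (6 * Real.pi)) ^ n := by
    unfold kap
    have := Real.pi_pos
    positivity
  rw [← ENNReal.ofReal_mul hk]
  have h3 : kap n * (5 / (6 * Real.pi)) ^ n * r ^ n = kap n * (5 * r / (6 * Real.pi)) ^ n := by
    rw [mul_assoc, ← mul_pow]
    have : 5 / (6 * Real.pi) * r = 5 * r / (6 * Real.pi) := by ring
    rw [this]
  rw [h3]
  exact h

end Pool.Agent.CRO
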